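import Pool.Agent.H66.IP.TB

/-!
# Interactive proofs do not see forrelation: targets, part C (games, stages, the theorem)
-/

set_option autoImplicit false

namespace Pool.Agent.H66.IP

open Finset Pool.Agent.H6.NB Pool.Agent.H70.OQ Pool.Agent.H70.EH Pool.Agent.H70.EI Pool.Agent.H78.XQ
open Pool.Agent.H75.OM (BPos)

/-! ## Games -/

/-- GTR: a protocol relative to an oracle which consists of constants and variables is a game tree. -/
def T_GTR : Prop := ∀ (X : Type) [Fintype X] (G : Game) (O : (X → Bool) → List Bool → Bool),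
  Lit O → ∃ t : Tr X, t.cc ≤ G.moves + G.qry ∧ t.dp ≤ G.moves + G.qry ∧ t.wd ≤ G.qry ∧
    ∀ y, t.ev y = G.val (O y)

/-- NDL: a random witness is not noticed. -/
def T_NDL : Prop := ∀ (n : ℕ) (G : Game) (O : ((Fin n → Bool) → Bool) → List Bool → Bool), Lit O →
  4 * G.qry ≤ 2 ^ n →
  ∑ z : Fin n → Bool, (G.val (O fun _ => false) - G.val (O fun x => decide (x = z))) ≤
    Fintype.card (Fin n → Bool) / 4

/-- GLO: the value depends on finitely many strings, and lies between `0` and `1`. -/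
def T_GLO : Prop := ∀ G : Game, (∀ O, 0 ≤ G.val O ∧ G.val O ≤ 1) ∧ ∃ m : ℕ,
  ∀ O O' : List Bool → Bool, (∀ w, w.length ≤ m → O w = O' w) → G.val O = G.val O'

/-- WNP: the language of the strings which have a witness is in NP. -/
def T_WNP : Prop := ∃ F : Machine 1, ∀ O, F.lang O = wit O

/-! ## Instance strings -/

/-- SPF: the instance strings, the scales and the positions of the blocks. -/
def T_SPF : Prop := ∀ V : ℕ → Local,
  (∀ p, sp V p = ins (V p.1).c p.1 p.2) ∧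
  (∀ p, 20 ≤ scl V p ∧ 16 * scl V p ^ 3 ≤ (sp V p).length ∧
    (sp V p).length ≤ 16 * (scl V p + 1) ^ 3) ∧
  (∀ p, Sz (scl V p) (sp V p).length (qs (sp V p)) (rns (sp V p)) (wln (sp V p))) ∧
  (∀ p w, BPos (dm V) p w → (sp V p).length < w.length ∧ ∃ w', w = true :: w') ∧
  (∀ p p' w, BPos (dm V) p w → BPos (dm V) p' w → p = p') ∧
  ∀ M, {p : ℕ × List Bool | (sp V p).length ≤ M}.Finite

/-- SMS: the sum of the error bounds. -/
def T_SMS : Prop := ∀ (V : ℕ → Local) (E : Finset (ℕ × List Bool)) (n : ℕ), 20 ≤ n →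
  (∀ p ∈ E, n + 1 ≤ scl V p) → ∑ p ∈ E, (1 / 8 : ℝ) ^ scl V p ≤ (1 / 4) ^ n

/-- ISZ: the oracle exists. -/
def T_ISZ : Prop := ∀ (V : ℕ → ATM) (E : Finset (ℕ × List Bool)), ∃ O, IsZ V E O

/-- IZU: how the oracle depends on the content of one block and on the default. -/
def T_IZU : Prop := ∀ (V : ℕ → ATM) (E : Finset (ℕ × List Bool))
  (O : (∀ p : {a // a ∈ E}, CP V p.1) → (List Bool → Bool) → List Bool → Bool), IsZ V E O →
  (∀ (P : ∀ p : {a // a ∈ E}, CP V p.1) (g : List Bool → Bool) (p : ℕ × List Bool) (h : p ∈ E),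
    (∀ w c, ¬ BPos V p w → O (Function.update P ⟨p, h⟩ c) g w = O P g w) ∧
    (∀ (c : CP V p) (u : Fin (2 * (hm V p).length) → Bool),
      Lit fun y : VV (qs (hm V p)) → Bool =>
        O (Function.update P ⟨p, h⟩ ((Function.update c.1 u y, c.2) : CP V p)) g) ∧
    ∀ c : CP V p, Lit fun y : (Fin (wln (hm V p)) → Bool) → Bool =>
      O (Function.update P ⟨p, h⟩ ((c.1, y) : CP V p)) g) ∧
  ∀ (P : ∀ p : {a // a ∈ E}, CP V p.1) (g g' : List Bool → Bool) (w : List Bool), g w = g' w →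
    O P g w = O P g' w

/-! ## Fooling -/

/-- GFL: short games do not see the blocks of larger scale. -/
def T_GFL : Prop := ∀ (V : ℕ → Local) (n : ℕ) (G : Game), G.moves ≤ 2 ^ n ^ 2 →
  4 * G.qry ≤ 2 ^ n → Fool V n fun O => G.val O

/-- WFL: machines do not see the blocks of larger scale. -/
def T_WFL : Prop := ∀ (V : ℕ → Local) (k : ℕ) (M : Machine k), ∃ n₀, ∀ n ≥ n₀, Fool V n (acz M n)

/-- WGP: machines do not notice a special row. -/
def T_WGP : Prop := ∀ (k : ℕ) (M : Machine (k + 1)), ∃ n₀, ∀ n ≥ n₀,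
  ∀ O : (Nn n (k + 1) → Bool) → List Bool → Bool, Lit O →
  ∑ z : Hid (Fin n → Bool) (Ys n) (k + 1) × (Fin n → Bool),
    (acz M n (O (tabU (k + 1) z.1 z.2)) - acz M n (O (tabT (k + 1) z.1))) ≤
    Fintype.card (Hid (Fin n → Bool) (Ys n) (k + 1) × (Fin n → Bool)) / 4

/-- PLT: the language `plang` on tables; the strings of a table; on which strings it depends. -/
def T_PLT : Prop := (∀ (k n : ℕ) (O : List Bool → Bool) (H : Hid (Fin n → Bool) (Ys n) k),
    ((∀ p, O (false :: nstr n k p) = tabT k H p) → List.replicate n false ∉ plang k O) ∧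
    ∀ x, (∀ p, O (false :: nstr n k p) = tabU k H x p) → List.replicate n false ∈ plang k O) ∧
  (∀ (k n : ℕ) (x : Nn n k), n ≤ (nstr n k x).length ∧ (nstr n k x).length ≤ 2 ^ (k + 1) * n) ∧
  (∀ (k n : ℕ) (x x' : Nn n k), nstr n k x = nstr n k x' → x = x') ∧
  ∀ (k n : ℕ) (O O' : List Bool → Bool), (∀ w, w.length ≤ 2 ^ (k + 1) * n + 1 → O w = O' w) →
    (List.replicate n false ∈ plang k O ↔ List.replicate n false ∈ plang k O')

/-- MSB: the masses of the distributions. -/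
def T_MSB : Prop := ∀ (V : ℕ → Local) (p : ℕ × List Bool),
  (∀ c, 0 ≤ m0p V p c) ∧ ∑ c, m0p V p c = 1 ∧ ∀ b : Bool,
    (∀ c, 0 ≤ mBp V p b c) ∧ ∑ c, mBp V p b c ≤ 1 ∧ |∑ c, mBp V p b c - 1| ≤ (1 / 8) ^ scl V p

/-! ## The hybrid argument -/

/-- HY3: the distributions which depend on smaller coordinates are replaced by fixed ones. -/
def T_HY3 : Prop := ∀ (I : Type) [Fintype I] [DecidableEq I] (T : I → Type) [∀ j, Fintype (T j)]
  (ord : I → ℕ) (m₀ : ∀ j, T j → ℝ) (m : Bool → ∀ j, T j → ℝ) (f : (∀ j, T j) → I → Bool)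
  (F : (∀ j, T j) → ℝ) (η : I → ℝ),
  (∀ j p, 0 ≤ m₀ j p) → (∀ j, ∑ p, m₀ j p ≤ 1) → (∀ b j p, 0 ≤ m b j p) →
  (∀ b j, ∑ p, m b j p ≤ 1) → (∀ j, 0 ≤ η j) →
  (∀ i j P p, ord i ≤ ord j → f (Function.update P j p) i = f P i) →
  (∀ b j P, |∑ p, m b j p * F (Function.update P j p) -
    ∑ p, m₀ j p * F (Function.update P j p)| ≤ η j) →
  |∑ P : (∀ j, T j), (∏ j, m (f P j) j (P j)) * F P -
    ∑ P : (∀ j, T j), (∏ j, m₀ j (P j)) * F P| ≤ ∑ j, η j

/-- PMS: the answers can be written one after the other. -/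
def T_PMS : Prop := ∀ (I : Type) [Fintype I] [DecidableEq I] (T : I → Type) (ord : I → ℕ)
  (f : (∀ j, T j) → I → Bool) (ok : Bool → ∀ j, T j → Prop), (∀ b j, ∃ p, ok b j p) →
  (∀ i j P p, ord i ≤ ord j → f (Function.update P j p) i = f P i) → ∃ P, ∀ j, ok (f P j) j (P j)

/-- FDC: the answers do not depend on the contents of the blocks of the same or larger scale. -/
def T_FDC : Prop := ∀ (V : ℕ → Local) (E : Finset (ℕ × List Bool))
  (O : (∀ p : {a // a ∈ E}, CP (dm V) p.1) → (List Bool → Bool) → List Bool → Bool),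
  IsZ (dm V) E O → ∀ (P : ∀ p : {a // a ∈ E}, CP (dm V) p.1) (g : List Bool → Bool)
    (p : ℕ × List Bool) (p' : ℕ × List Bool) (h : p' ∈ E) (c : CP (dm V) p'),
    scl V p ≤ scl V p' →
    ((V p.1).acc p.2 (O (Function.update P ⟨p', h⟩ c) g) ↔ (V p.1).acc p.2 (O P g))

/-- GLC: on which strings it depends whether an instance is good. -/
def T_GLC : Prop := ∀ (V : ℕ → Local) (p : ℕ × List Bool) (O O' : List Bool → Bool),
  (∀ w, w.length + 20 ≤ scl V p ∨ BPos (dm V) p w → O w = O' w) → Good V p O → Good V p O'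

/-- STG: a stage with given instances. -/
def T_STG : Prop := ∀ (V : ℕ → Local) (n : ℕ) (E : Finset (ℕ × List Bool))
  (O : (∀ p : {a // a ∈ E}, CP (dm V) p.1) → (List Bool → Bool) → List Bool → Bool)
  (F : (List Bool → Bool) → ℝ) (Z : Type) [Fintype Z] [Nonempty Z]
  (g₁ g₂ : Z → List Bool → Bool), IsZ (dm V) E O → 20 ≤ n → (∀ p ∈ E, n + 1 ≤ scl V p) →
  (∀ O, 0 ≤ F O ∧ F O ≤ 1) → Fool V n F →
  (∀ P, ∑ z, (F (O P (g₁ z)) - F (O P (g₂ z))) ≤ Fintype.card Z / 4) →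
  ∃ z P, ((∀ p ∈ E, Good V p (O P (g₁ z))) ∧ F (O P (g₁ z)) < 2 / 3) ∨
    ((∀ p ∈ E, Good V p (O P (g₂ z))) ∧ 1 / 3 < F (O P (g₂ z)))

/-- STJ: one stage. -/
def T_STJ : Prop := ∀ (V : ℕ → Local) (n k M : ℕ) (O : List Bool → Bool)
  (F : (List Bool → Bool) → ℝ) (Z : Type) [Fintype Z] [Nonempty Z] (T₁ T₂ : Z → Nn n k → Bool),
  20 ≤ n → 16 * (n + 1) ^ 3 < M → (∀ p, (sp V p).length ≤ 16 * (n + 1) ^ 3 → Good V p O) →
  (∀ O O', (∀ w, w.length ≤ M → O w = O' w) → F O = F O') → (∀ O, 0 ≤ F O ∧ F O ≤ 1) →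
  Fool V n F →
  (∀ O : (Nn n k → Bool) → List Bool → Bool, Lit O →
    ∑ z, (F (O (T₁ z)) - F (O (T₂ z))) ≤ Fintype.card Z / 4) →
  ∃ (O' : List Bool → Bool) (z : Z) (b : Bool),
    (∀ p, (sp V p).length ≤ M → Good V p O') ∧
    (∀ w, (∀ x : Nn n k, w ≠ false :: nstr n k x) →
      (∀ p, 16 * (n + 1) ^ 3 < (sp V p).length → ¬ BPos (dm V) p w) → O' w = O w) ∧
    (∀ x : Nn n k, O' (false :: nstr n k x) = if b then T₁ z x else T₂ z x) ∧
    (b = true → F O' < 2 / 3) ∧ (b = false → 1 / 3 < F O')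

/-- LOW: the extension without a requirement. -/
def T_LOW : Prop := ∀ (V : ℕ → Local) (M M' : ℕ) (O : List Bool → Bool), M < M' →
  (∀ p, (sp V p).length ≤ M → Good V p O) → ∃ O', Ext V M O M' O'

/-- GST: the stage of a protocol. -/
def T_GST : Prop := ∀ (V : ℕ → Local) (G : ℕ → Game),
  (∀ n, (G n).moves ≤ 2 ^ n ^ 2 ∧ 4 * (G n).qry ≤ 2 ^ n) → ∀ (N M : ℕ) (O : List Bool → Bool),
  (∀ p, (sp V p).length ≤ M → Good V p O) → ∃ (M' : ℕ) (O' : List Bool → Bool),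
    Ext V M O M' O' ∧ ∀ O'' : List Bool → Bool, (∀ w, w.length ≤ M' → O'' w = O' w) →
      ∃ n ≥ N, ¬ (G n).Proves O'' (List.replicate n false ∉ wit O'')

/-- WST: the stage of a machine. -/
def T_WST : Prop := ∀ (V : ℕ → Local) (k : ℕ) (F : Machine (k + 1)) (M : ℕ)
  (O : List Bool → Bool), (∀ p, (sp V p).length ≤ M → Good V p O) →
  ∃ (M' : ℕ) (O' : List Bool → Bool), Ext V M O M' O' ∧
    ∀ O'' : List Bool → Bool, (∀ w, w.length ≤ M' → O'' w = O' w) →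
      F.lang O'' ≠ plang (k + 1) O''

/-- FUS: the limit. -/
def T_FUS : Prop := ∀ (ι : Type) (sz : ι → ℕ) (B : ι → List Bool → Prop)
  (Gd : ι → (List Bool → Bool) → Prop) (R : ℕ → (List Bool → Bool) → Prop),
  (∀ p, 0 < sz p) →
  (∀ p O O', (∀ w, w.length ≤ sz p ∨ B p w → O w = O' w) → Gd p O → Gd p O') →
  (∀ k M O, (∀ p, sz p ≤ M → Gd p O) → ∃ (M' : ℕ) (O' : List Bool → Bool), M < M' ∧
    (∀ w, (w.length ≤ M ∨ ∃ p, sz p ≤ M ∧ B p w) → O' w = O w) ∧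
    (∀ p, sz p ≤ M' → Gd p O') ∧ ∀ O'', (∀ w, w.length ≤ M' → O'' w = O' w) → R k O'') →
  ∃ O, (∀ p, Gd p O) ∧ ∀ k, R k O

/-- FIN: the theorem. -/
def T_FIN : Prop := ∀ (V : ℕ → Local) (W : ℕ → (k : ℕ) × Machine (k + 1))
  (G : ℕ → List Bool → Game),
  (∀ j x, (G j x).moves ≤ 2 ^ x.length ^ 2 ∧ 4 * (G j x).qry ≤ 2 ^ x.length) →
  ∃ O : List Bool → Bool,
    (∀ i x, ((V i).acc x O → (exact (ins (V i).c i x)).prob O = 1) ∧
      (¬ (V i).acc x O → (exact (ins (V i).c i x)).prob O = 0)) ∧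
    (∀ j N, ∃ n ≥ N, ¬ (G j (List.replicate n false)).Proves O
      (List.replicate n false ∉ wit O)) ∧
    ∀ j, (W j).2.lang O ≠ plang ((W j).1 + 1) O

end Pool.Agent.H66.IP
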