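import Pool.Agent.H66.IP.SMA

/-!
# The masses
-/

set_option autoImplicit false

namespace Pool.Agent.H66.IP

open Finset

theorem lv_mem {V : Type} (c : Bool) (τ : V → Option Bool) (y : V → Bool) :
    0 ≤ lv c τ y ∧ lv c τ y ≤ 1 := by
  unfold lv
  split_ifs <;> norm_num

theorem ms_mem (β : ℝ) {V : Type} (t : Tr V) (y : V → Bool) (x : V) :
    0 ≤ t.ms β x y ∧ t.ms β x y ≤ 1 := by
  induction t with
  | lf c τ =>
    unfold Tr.ms
    split_ifs
    · norm_num
    · exact lv_mem c τ y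
  | av l r hl hr =>
    unfold Tr.ms
    constructor <;> linarith [hl.1, hl.2, hr.1, hr.2]
  | ch l r hl hr =>
    unfold Tr.ms
    have h1 := gw_pos β (l.sv β y) (r.sv β y)
    have h2 := gw_pos β (r.sv β y) (l.sv β y)
    have h3 := gw_add β (l.sv β y) (r.sv β y)
    have h4 := mul_nonneg h1.le hl.1
    have h5 := mul_nonneg h2.le hr.1
    have h6 := mul_le_mul_of_nonneg_left hl.2 h1.le
    have h7 := mul_le_mul_of_nonneg_left hr.2 h2.le
    constructor <;> linarith

theorem ms_sum (β : ℝ) {V : Type} [Fintype V] (t : Tr V) (y : V → Bool) :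
    ∑ x, t.ms β x y ≤ t.wd := by
  induction t with
  | lf c τ =>
    unfold Tr.ms Tr.wd
    have h1 : ∀ x : V, (if τ x = none then (0 : ℝ) else lv c τ y) ≤ if τ x ≠ none then 1 else 0 := by
      intro x
      by_cases h : τ x = none
      · simp [h]
      · simp only [h, if_false, ne_eq, not_false_eq_true, if_true]
        exact (lv_mem c τ y).2
    refine (Finset.sum_le_sum fun x _ => h1 x).trans ?_
    rw [Finset.sum_boole]
  | av l r hl hr =>
    unfold Tr.ms Tr.wd
    rw [← Finset.sum_div, Finset.sum_add_distrib]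
    have h1 : (l.wd : ℝ) ≤ ((max l.wd r.wd : ℕ) : ℝ) := by exact_mod_cast le_max_left _ _
    have h2 : (r.wd : ℝ) ≤ ((max l.wd r.wd : ℕ) : ℝ) := by exact_mod_cast le_max_right _ _
    linarith
  | ch l r hl hr =>
    unfold Tr.ms Tr.wd
    rw [Finset.sum_add_distrib, ← Finset.mul_sum, ← Finset.mul_sum]
    have h1 : (l.wd : ℝ) ≤ ((max l.wd r.wd : ℕ) : ℝ) := by exact_mod_cast le_max_left _ _
    have h2 : (r.wd : ℝ) ≤ ((max l.wd r.wd : ℕ) : ℝ) := by exact_mod_cast le_max_right _ _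
    have h3 := gw_pos β (l.sv β y) (r.sv β y)
    have h4 := gw_pos β (r.sv β y) (l.sv β y)
    have h5 := gw_add β (l.sv β y) (r.sv β y)
    have h6 := mul_le_mul_of_nonneg_left (hl.trans h1) h3.le
    have h7 := mul_le_mul_of_nonneg_left (hr.trans h2) h4.le
    have h8 : gw β (l.sv β y) (r.sv β y) * ((max l.wd r.wd : ℕ) : ℝ) +
        gw β (r.sv β y) (l.sv β y) * ((max l.wd r.wd : ℕ) : ℝ) = ((max l.wd r.wd : ℕ) : ℝ) := by
      rw [← add_mul, h5, one_mul]
    linarith

theorem pf_MSS : T_MSS := fun _ _ β t y _ => ⟨ms_mem β t y, ms_sum β t y⟩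

end Pool.Agent.H66.IP
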