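import Pool.Agent.H10.IPF.GL2
import Pool.Agent.H10.IPF.HVY
import Pool.Agent.H15.IP.EXQ
import Pool.Agent.H15.IP.LGR
import Pool.Agent.H19.IP.SQA
import Pool.Agent.H66.IP.MSS
import Pool.Agent.H43.IP.LGT
import Pool.Agent.H43.IP.SQB
import Pool.Agent.H43.IP.TRN
import Pool.Agent.H69.IP.EXL
import Pool.Agent.H69.IP.LIP
import Pool.Agent.H76.IP.RTR
import Pool.Agent.H76.IP.SBT
import Pool.Agent.H84.IP.PTW
import Pool.Agent.H84.IP.RSM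
import Pool.Agent.H89.IP.EVS

/-!
# Assembly of part A
-/

set_option autoImplicit false

namespace Pool.Agent.H66.IP

theorem pf_EVS : T_EVS := Pool.Agent.H89.IP.pf_EVS pf_SMA



theorem pf_LIP : T_LIP := Pool.Agent.H69.IP.pf_LIP pf_SMA

theorem pf_EXL : T_EXL := Pool.Agent.H69.IP.pf_EXL

theorem pf_RSM : T_RSM := Pool.Agent.H84.IP.pf_RSM pf_SMA pf_MSS

theorem pf_TRN : T_TRN := Pool.Agent.H43.IP.pf_TRN pf_SMA pf_EVS pf_MSS pf_LIP pf_RSM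

theorem pf_SQA : T_SQA := Pool.Agent.H19.IP.pf_SQA

theorem pf_SQB : T_SQB := Pool.Agent.H43.IP.pf_SQB

theorem pf_EXQ : T_EXQ := Pool.Agent.H15.IP.pf_EXQ

theorem pf_EXB : T_EXB := Pool.Agent.H15.IP.pf_EXB

theorem pf_LGR : T_LGR := Pool.Agent.H15.IP.pf_LGR

theorem pf_HVY : T_HVY := Pool.Agent.H10.IPF.pf_HVY pf_MSS pf_LIP pf_RSM pf_TRN

theorem pf_LGT : T_LGT := Pool.Agent.H43.IP.pf_LGT pf_SMA pf_EVS pf_MSS pf_LIP pf_RSM pf_TRN pf_SQA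
  pf_SQB pf_EXQ pf_EXB pf_LGR

theorem pf_PTW : T_PTW := Pool.Agent.H84.IP.pf_PTW pf_RSM pf_HVY pf_LGT

theorem pf_GL2 : T_GL2 := Pool.Agent.H10.IPF.pf_GL2 pf_PTW pf_RSM

theorem pf_RTR : T_RTR := Pool.Agent.H76.IP.pf_RTR

theorem pf_SBT : T_SBT := Pool.Agent.H76.IP.pf_SBT

end Pool.Agent.H66.IP
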