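import Pool.Agent.H66.IP.TC

/-!
# The theorem for protocols which satisfy the bounds for long inputs
-/

set_option autoImplicit false

namespace Pool.Agent.H66.IP

open Pool.Agent.H6.NB Pool.Agent.H70.OQ Pool.Agent.H70.EI Pool.Agent.H78.XQ

theorem relax (h : T_FIN) (V : ℕ → Local) (W : ℕ → (k : ℕ) × Machine (k + 1))
    (G : ℕ → List Bool → Game)
    (hG : ∀ j, ∃ n₀, ∀ x : List Bool, n₀ ≤ x.length →
      (G j x).moves ≤ 2 ^ x.length ^ 2 ∧ 4 * (G j x).qry ≤ 2 ^ x.length) :
    ∃ O : List Bool → Bool,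
      (∀ i x, ((V i).acc x O → (exact (ins (V i).c i x)).prob O = 1) ∧
        (¬ (V i).acc x O → (exact (ins (V i).c i x)).prob O = 0)) ∧
      (∀ j N, ∃ n ≥ N, ¬ (G j (List.replicate n false)).Proves O
        (List.replicate n false ∉ wit O)) ∧
      ∀ j, (W j).2.lang O ≠ plang ((W j).1 + 1) O := by
  choose n₀ hn₀ using hG
  obtain ⟨O, h1, h2, h3⟩ := h V W
    (fun j x => if n₀ j ≤ x.length then G j x else .test (.leaf false)) (by
      intro j x
      by_cases hx : n₀ j ≤ x.length
      · simp only [hx, if_true]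
        exact hn₀ j x hx
      · simp only [hx, if_false]
        exact ⟨Nat.zero_le _, Nat.zero_le _⟩)
  refine ⟨O, h1, fun j N => ?_, h3⟩
  obtain ⟨n, hn, h4⟩ := h2 j (max N (n₀ j))
  refine ⟨n, le_trans (le_max_left _ _) hn, ?_⟩
  have hx : n₀ j ≤ (List.replicate n false).length := by
    rw [List.length_replicate]
    exact le_trans (le_max_right _ _) hn
  simp only [hx, if_true] at h4
  exact h4

end Pool.Agent.H66.IP
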