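import Pool.Agent.H1.IP.CPU
import Pool.Agent.H10.IPF.BLG
import Pool.Agent.H10.IPF.NDL
import Pool.Agent.H15.IP.FUS
import Pool.Agent.H15.IP.HY3
import Pool.Agent.H15.IP.STG
import Pool.Agent.H16.IP.SPF
import Pool.Agent.H16.IP.WST
import Pool.Agent.H18.IP.PLT
import Pool.Agent.H18.IP.SMS
import Pool.Agent.H18.IP.WFL
import Pool.Agent.H32.IP.GFL
import Pool.Agent.H32.IP.IZU
import Pool.Agent.H32.IP.SYX
import Pool.Agent.H36.NB.STE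
import Pool.Agent.H37.IP.MSB
import Pool.Agent.H40.IP.VRN
import Pool.Agent.H40.IP.WGP
import Pool.Agent.H43.IP.GST
import Pool.Agent.H43.IP.GTR
import Pool.Agent.H43.IP.STJ
import Pool.Agent.H52.IP.BFW
import Pool.Agent.H52.IP.FIN
import Pool.Agent.H59.IP.GLO
import Pool.Agent.H59.IP.LOW
import Pool.Agent.H59.IP.WEX
import Pool.Agent.H66.IP.AllA
import Pool.Agent.H66.IP.Rel
import Pool.Agent.H67.IP.ONC
import Pool.Agent.H75.IP.FDC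
import Pool.Agent.H75.IP.GLC
import Pool.Agent.H75.IP.ISZ
import Pool.Agent.H75.OM.All
import Pool.Agent.H76.IP.ABS
import Pool.Agent.H77.IP.WNP
import Pool.Agent.H79.IP.BFG
import Pool.Agent.H84.IP.ADJ
import Pool.Agent.H84.IP.GWT

/-!
# Assembly of parts B and C
-/

set_option autoImplicit false

namespace Pool.Agent.H66.IP

theorem pf_STE_NB : Pool.Agent.H6.NB.T_STE := Pool.Agent.H36.NB.STE.t_ste
  Pool.Agent.H70.EI.pf_FOU_NB Pool.Agent.H70.EI.pf_RST_NB Pool.Agent.H70.EI.pf_DIR_NB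

theorem pf_ABS : Pool.Agent.H76.IP.T_ABS := Pool.Agent.H76.IP.pf_ABS pf_STE_NB
  Pool.Agent.H70.EI.pf_WLM_EH Pool.Agent.H70.EI.pf_MUV_EH Pool.Agent.H70.EI.pf_WLK_NB

theorem pf_ONC : T_ONC := Pool.Agent.H67.IP.pf_ONC pf_EVS pf_RTR pf_GL2 pf_ABS
  Pool.Agent.H70.EI.pf_MUV_EH

theorem pf_CPU : T_CPU := Pool.Agent.H1.IP.pf_CPU

theorem pf_SYX : T_SYX := Pool.Agent.H32.IP.pf_SYX Pool.Agent.H70.EI.pf_CHA_EH
  Pool.Agent.H70.EI.pf_PHV_EH Pool.Agent.H70.EI.pf_MUV_EH Pool.Agent.H70.EI.pf_PHB_NB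
  Pool.Agent.H70.EI.pf_PHU_NB

theorem pf_WEX : T_WEX := Pool.Agent.H59.IP.pf_WEX Pool.Agent.H78.XQ.pf_ITG
  Pool.Agent.H78.XQ.pf_NUX

theorem pf_ADJ : T_ADJ := Pool.Agent.H84.IP.pf_ADJ pf_EXL

theorem pf_VRN : T_VRN := Pool.Agent.H40.IP.pf_VRN

theorem pf_GWT : T_GWT := Pool.Agent.H84.IP.pf_GWT pf_ADJ pf_VRN pf_EVS

theorem pf_BLG : T_BLG := Pool.Agent.H10.IPF.pf_BLG pf_EVS pf_ONC pf_CPU pf_SYX pf_WEX pf_GWT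
  Pool.Agent.H70.EI.pf_MUV_EH

theorem pf_BFG : T_BFG := Pool.Agent.H79.IP.pf_BFG pf_BLG

theorem pf_BFW : T_BFW := Pool.Agent.H52.IP.pf_BFW Pool.Agent.H78.XQ.pf_BLX
  Pool.Agent.H78.XQ.pf_MAS

theorem pf_GTR : T_GTR := Pool.Agent.H43.IP.pf_GTR

theorem pf_NDL : T_NDL := Pool.Agent.H10.IPF.pf_NDL pf_GTR pf_EXL

theorem pf_GLO : T_GLO := Pool.Agent.H59.IP.pf_GLO

theorem pf_WNP : T_WNP := Pool.Agent.H77.IP.pf_WNP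

theorem pf_SPF : T_SPF := Pool.Agent.H16.IP.pf_SPF Pool.Agent.H70.EI.pf_HMX
  Pool.Agent.H70.EI.pf_COD_NB

theorem pf_SMS : T_SMS := Pool.Agent.H18.IP.pf_SMS Pool.Agent.H70.EI.pf_CNT
  Pool.Agent.H70.EI.pf_RHO

theorem pf_ISZ : T_ISZ := Pool.Agent.H75.IP.pf_ISZ Pool.Agent.H75.OM.All.pf_ISY
  Pool.Agent.H70.EI.pf_RHO

theorem pf_IZU : T_IZU := Pool.Agent.H32.IP.pf_IZU

theorem pf_GFL : T_GFL := Pool.Agent.H32.IP.pf_GFL pf_GTR pf_IZU pf_SPF pf_BFG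

theorem pf_WFL : T_WFL := Pool.Agent.H18.IP.pf_WFL Pool.Agent.H70.EI.pf_LCL pf_IZU pf_SPF pf_BFW

theorem pf_WGP : T_WGP := Pool.Agent.H40.IP.pf_WGP Pool.Agent.H70.EI.pf_TBN
  Pool.Agent.H70.EI.pf_FML

theorem pf_PLT : T_PLT := Pool.Agent.H18.IP.pf_PLT Pool.Agent.H70.EI.pf_NDV_OQ

theorem pf_MSB : T_MSB := Pool.Agent.H37.IP.pf_MSB Pool.Agent.H78.XQ.pf_MAS pf_SPF pf_BFG

theorem pf_HY3 : T_HY3 := Pool.Agent.H15.IP.pf_HY3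

theorem pf_PMS : T_PMS := Pool.Agent.H15.IP.pf_PMS

theorem pf_FDC : T_FDC := Pool.Agent.H75.IP.pf_FDC pf_IZU pf_SPF

theorem pf_GLC : T_GLC := Pool.Agent.H75.IP.pf_GLC

theorem pf_STG : T_STG := Pool.Agent.H15.IP.pf_STG pf_HY3 pf_MSB pf_SMS pf_FDC

theorem pf_STJ : T_STJ := Pool.Agent.H43.IP.pf_STJ pf_STG pf_ISZ pf_IZU pf_SPF pf_GLC pf_PLT

theorem pf_LOW : T_LOW := Pool.Agent.H59.IP.pf_LOW pf_PMS pf_MSB pf_ISZ pf_SPF pf_FDC pf_GLC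

theorem pf_GST : T_GST := Pool.Agent.H43.IP.pf_GST pf_LOW pf_STJ pf_GFL pf_NDL pf_GLO pf_SPF
  pf_PLT

theorem pf_WST : T_WST := Pool.Agent.H16.IP.pf_WST pf_LOW pf_STJ pf_WFL pf_WGP pf_SPF pf_PLT

theorem pf_FUS : T_FUS := Pool.Agent.H15.IP.pf_FUS

theorem pf_FIN : T_FIN := Pool.Agent.H52.IP.pf_FIN pf_FUS pf_GST pf_WST pf_SPF pf_GLC
  Pool.Agent.H78.XQ.pf_EXA

end Pool.Agent.H66.IP
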