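import Pool.Agent.H6.NB.Defs

/-!
# Interactive proofs do not see forrelation: game trees

A game between a verifier who tosses fair coins and a prover who makes choices, over Boolean
variables `V`. The value with soft choices (parameter `β`) is smooth in a discrete sense.
-/

set_option autoImplicit false

namespace Pool.Agent.H66.IP

open Finset Pool.Agent.H6.NB

/-- Game trees: terms (conjunctions of literals, or the constant zero), fair coins, choices of the
prover. -/
inductive Tr (V : Type) : Type
  | lf (c : Bool) (τ : V → Option Bool) : Tr V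
  | av (l r : Tr V) : Tr V
  | ch (l r : Tr V) : Tr V

open Classical in
/-- The value of a term. -/
noncomputable def lv {V : Type} (c : Bool) (τ : V → Option Bool) (y : V → Bool) : ℝ :=
  if c = true ∧ ∀ v b, τ v = some b → y v = b then 1 else 0

/-- The soft maximum. -/
noncomputable def smx (β a b : ℝ) : ℝ := Real.log ((Real.exp (β * a) + Real.exp (β * b)) / 2) / β

/-- The Gibbs weight of the first of two values. -/
noncomputable def gw (β a b : ℝ) : ℝ := Real.exp (β * a) / (Real.exp (β * a) + Real.exp (β * b))

namespace Tr

variable {V : Type}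

/-- The value of the game. -/
noncomputable def ev : Tr V → (V → Bool) → ℝ
  | lf c τ, y => lv c τ y
  | av l r, y => (l.ev y + r.ev y) / 2
  | ch l r, y => max (l.ev y) (r.ev y)

/-- The value with soft choices. -/
noncomputable def sv (β : ℝ) : Tr V → (V → Bool) → ℝ
  | lf c τ, y => lv c τ y
  | av l r, y => (l.sv β y + r.sv β y) / 2
  | ch l r, y => smx β (l.sv β y) (r.sv β y)

open Classical in
/-- The probability that the game ends in a true term with the variable `x`. -/
noncomputable def ms (β : ℝ) (x : V) : Tr V → (V → Bool) → ℝ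
  | lf c τ, y => if τ x = none then 0 else lv c τ y
  | av l r, y => (l.ms β x y + r.ms β x y) / 2
  | ch l r, y => gw β (l.sv β y) (r.sv β y) * l.ms β x y +
      gw β (r.sv β y) (l.sv β y) * r.ms β x y

/-- The number of choices on a path. -/
def cc : Tr V → ℕ
  | lf _ _ => 0
  | av l r => max l.cc r.cc
  | ch l r => max l.cc r.cc + 1

/-- The number of moves on a path. -/
def dp : Tr V → ℕ
  | lf _ _ => 0
  | av l r => max l.dp r.dp + 1
  | ch l r => max l.dp r.dp + 1

open Classical in
/-- The number of literals of a term. -/
noncomputable def wd [Fintype V] : Tr V → ℕ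
  | lf _ τ => (univ.filter fun v => τ v ≠ none).card
  | av l r => max l.wd r.wd
  | ch l r => max l.wd r.wd

section

variable [DecidableEq V]

/-- Products of masses of the variables `x` and `z` at the node itself. -/
noncomputable def own (β : ℝ) (x z : V) (t : Tr V) (y : V → Bool) : ℝ :=
  t.ms β x y * (t.ms β z y + t.ms β z (Function.update y x (!y x))) +
    t.ms β z y * (t.ms β x y + t.ms β x (Function.update y z (!y z)))

/-- The sum of the products over the nodes of a random path. -/
noncomputable def rr (β : ℝ) (x z : V) : Tr V → (V → Bool) → ℝ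
  | lf c τ, y => (lf c τ).own β x z y
  | av l r, y => (av l r).own β x z y + (l.rr β x z y + r.rr β x z y) / 2
  | ch l r, y => (ch l r).own β x z y + (gw β (l.sv β y) (r.sv β y) * l.rr β x z y +
      gw β (r.sv β y) (l.sv β y) * r.rr β x z y)

end

end Tr

section

variable {V : Type} [DecidableEq V]

/-- Flip the variable `x`. -/
def fp (x : V) (y : V → Bool) : V → Bool := Function.update y x (!y x)

/-- The second difference. -/
def dd (x z : V) (F : (V → Bool) → ℝ) (y : V → Bool) : ℝ :=
  F (fp x (fp z y)) - F (fp x y) - F (fp z y) + F y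

/-- The sum over the four corners. -/
def c4 (x z : V) (F : (V → Bool) → ℝ) (y : V → Bool) : ℝ :=
  F y + F (fp x y) + F (fp z y) + F (fp x (fp z y))

end

/-- The numbers on the four corners of a square: values `g`, masses `a` (first direction) and `a'`
(second direction), as they occur in a game. The corner `(i, j)`; `i` is the first direction. -/
structure Sq (g a a' : Bool → Bool → ℝ) : Prop where
  g0 : ∀ i j, 0 ≤ g i j
  g1 : ∀ i j, g i j ≤ 1
  a0 : ∀ i j, 0 ≤ a i j
  a1 : ∀ i j, a i j ≤ 1
  b0 : ∀ i j, 0 ≤ a' i j
  b1 : ∀ i j, a' i j ≤ 1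
  da : ∀ i j, g i j - g (!i) j ≤ a i j
  db : ∀ i j, g i j - g i (!j) ≤ a' i j
  dab : ∀ i j, g i j - g (!i) (!j) ≤ a i j + a' i j

/-- The products at a corner. -/
def ow (a a' : Bool → Bool → ℝ) (i j : Bool) : ℝ :=
  a i j * (a' i j + a' (!i) j) + a' i j * (a i j + a i (!j))

/-- The threshold. -/
noncomputable def tht (β : ℝ) (k : ℕ) : ℝ := 1 / (40 * β * k)

end Pool.Agent.H66.IP
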