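import Pool.Agent.H78.XQ.Stmt

/-!
# Quantum computers decide everything local, interactive proofs do not: definitions

The decision trees `DT` over an oracle, the strings `code`, the machines `Machine k` with `k`
alternating quantifiers, the languages `plang` and the exact quantum algorithm `exact` are those of
`Pool.Agent.H78.XQ.Stmt` and the files it imports.
-/

set_option autoImplicit false

namespace Pool.Agent.H66.IP

open Pool.Agent.H6.NB Pool.Agent.H70.OQ Pool.Agent.H70.EH Pool.Agent.H70.EI Pool.Agent.H78.XQ

/-- A local language relative to an oracle: `acc x O` (`x` is accepted relative to `O`) depends only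
on the strings of the oracle of length at most `|x| ^ c + c`. For example: an oracle machine with
arbitrary (unbounded) computing power which queries only strings of this length. -/
structure Local where
  c : ℕ
  acc : List Bool → (List Bool → Bool) → Prop
  loc : ∀ x O O', (∀ w : List Bool, w.length ≤ x.length ^ c + c → O w = O' w) →
    (acc x O ↔ acc x O')

/-- The instance string for the input `x` of the local language number `i` with exponent `c`. -/
def ins (c i : ℕ) (x : List Bool) : List Bool :=
  code x (List.replicate i true) (16 * (x.length + i + (x.length ^ c + c) + 20) ^ 3)

/-- An interactive protocol with public coins, for a fixed input. Each move is one bit: `coin`: the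
verifier tosses a fair coin and shows the result, `say`: the prover sends one bit. At the end the
verifier makes adaptive queries to the oracle, given by a decision tree, and accepts or rejects. -/
inductive Game : Type
  | test (t : DT) : Game
  | coin (l r : Game) : Game
  | say (l r : Game) : Game

namespace Game

/-- The largest probability with which a prover (who knows the oracle and has unlimited power) can
make the verifier accept. -/
noncomputable def val (O : List Bool → Bool) : Game → ℝ
  | test t => if t.eval O = true then 1 else 0
  | coin l r => (l.val O + r.val O) / 2
  | say l r => max (l.val O) (r.val O)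

/-- The maximal number of moves. -/
def moves : Game → ℕ
  | test _ => 0
  | coin l r => max l.moves r.moves + 1
  | say l r => max l.moves r.moves + 1

/-- The maximal number of queries. -/
def qry : Game → ℕ
  | test t => t.depth
  | coin l r => max l.qry r.qry
  | say l r => max l.qry r.qry

/-- The protocol proves the statement `A` relative to `O`: if `A` is true, some prover makes the
verifier accept with probability at least `2/3`; if `A` is false, every prover makes the verifier
accept with probability at most `1/3`. -/
def Proves (g : Game) (O : List Bool → Bool) (A : Prop) : Prop :=
  (A → 2 / 3 ≤ g.val O) ∧ (¬ A → g.val O ≤ 1 / 3)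

end Game

/-- A language in `NP` relative to `O`: the string `x` has a witness, that is a string `v` of the
same length as `x` such that the oracle contains `0 v`. (It depends on `|x|` only.) -/
def wit (O : List Bool → Bool) : Set (List Bool) :=
  {x | ∃ v : List Bool, v.length = x.length ∧ O (false :: v) = true}

/-- The statement of the theorem. -/
def Main : Prop :=
  (∃ F : Machine 1, ∀ O, F.lang O = wit O) ∧
  (∀ k : ℕ, ∃ F : Machine (k + 1), ∀ O, F.lang O = plang k O) ∧
  (∀ s : List Bool, (exact s).T = 6 ∧ (exact s).Small (4 * 10 ^ 9 * (s.length + 1) ^ 4)) ∧
  ∀ (V : ℕ → Local) (W : ℕ → (k : ℕ) × Machine (k + 1)) (G : ℕ → List Bool → Game),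
    (∀ j x, (G j x).moves ≤ 2 ^ x.length ^ 2 ∧ 4 * (G j x).qry ≤ 2 ^ x.length) →
    ∃ O : List Bool → Bool,
      (∀ i x, ((V i).acc x O → (exact (ins (V i).c i x)).prob O = 1) ∧
        (¬ (V i).acc x O → (exact (ins (V i).c i x)).prob O = 0)) ∧
      (∀ j N, ∃ n ≥ N, ¬ (G j (List.replicate n false)).Proves O
        (List.replicate n false ∉ wit O)) ∧
      ∀ j, (W j).2.lang O ≠ plang ((W j).1 + 1) O

end Pool.Agent.H66.IP
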