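import Pool.Agent.H66.IP.Defs
import Pool.Agent.H66.IP.Stmt
import Pool.Agent.H75.OM.Defs

/-!
# Interactive proofs do not see forrelation: definitions for parts B and C
-/

set_option autoImplicit false

namespace Pool.Agent.H66.IP

open Finset Pool.Agent.H6.NB Pool.Agent.H70.OQ Pool.Agent.H70.EH Pool.Agent.H70.EI Pool.Agent.H78.XQ
open Pool.Agent.H75.OM (BPos)

/-- The alternating machine without quantifiers and without queries which has the same instance
strings as `V`. -/
def dmy (V : Local) : ATM where
  time n := 2 ^ (n ^ V.c + V.c)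
  alt _ := 0
  tree _ _ := .leaf false
  depth_le _ _ _ _ := Nat.zero_le _
  short _ _ _ _ := trivial

/-- The family of these machines. -/
def dm (V : ℕ → Local) : ℕ → ATM := fun i => dmy (V i)

/-- The instance string of `p = (i, x)`. -/
abbrev sp (V : ℕ → Local) (p : ℕ × List Bool) : List Bool := hm (dm V) p

/-- The scale of `p = (i, x)`. -/
def scl (V : ℕ → Local) (p : ℕ × List Bool) : ℕ :=
  p.2.length + p.1 + (p.2.length ^ (V p.1).c + (V p.1).c) + 20

/-- `O P g` is the oracle built from the contents `P p`, `p ∈ E`, and from the default `g`. -/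
structure IsZ (V : ℕ → ATM) (E : Finset (ℕ × List Bool))
    (O : (∀ p : {a // a ∈ E}, CP V p.1) → (List Bool → Bool) → List Bool → Bool) : Prop where
  blk : ∀ (P : ∀ p : {a // a ∈ E}, CP V p.1) (g : List Bool → Bool) (p : ℕ × List Bool)
    (h : p ∈ E), cps (O P g) (hm V p) = (P ⟨p, h⟩).1
  cor : ∀ (P : ∀ p : {a // a ∈ E}, CP V p.1) (g : List Bool → Bool) (p : ℕ × List Bool)
    (h : p ∈ E), cst (O P g) (hm V p) = (P ⟨p, h⟩).2
  out : ∀ w, (∀ p ∈ E, ¬ BPos V p w) → ∀ P g, O P g w = g w

/-- The distribution of the contents with the answer `b`. -/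
noncomputable def mBp (V : ℕ → Local) (p : ℕ × List Bool) (b : Bool) (c : CP (dm V) p) : ℝ :=
  mB (qs (sp V p)) (sp V p).length (rns (sp V p)) (wln (sp V p)) b c

/-- The uniform distribution of the contents. -/
noncomputable def m0p (V : ℕ → Local) (p : ℕ × List Bool) (c : CP (dm V) p) : ℝ :=
  m0 (qs (sp V p)) (sp V p).length (wln (sp V p)) c

open Classical in
/-- The block of the instance `p` says the answer of the instance. -/
def Good (V : ℕ → Local) (p : ℕ × List Bool) (O : List Bool → Bool) : Prop :=
  OkB (qs (sp V p)) (sp V p).length (rns (sp V p)) (wln (sp V p))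
    (decide ((V p.1).acc p.2 O)) (cps O (sp V p), cst O (sp V p))

/-- `O'` extends `O`: the strings of length at most `M` and the blocks of the instances with instance
strings of length at most `M` are not changed, and all instances with instance strings of length at
most `M'` are good. -/
structure Ext (V : ℕ → Local) (M : ℕ) (O : List Bool → Bool) (M' : ℕ) (O' : List Bool → Bool) :
    Prop where
  lt : M < M'
  eq : ∀ w, (w.length ≤ M ∨ ∃ p, (sp V p).length ≤ M ∧ BPos (dm V) p w) → O' w = O w
  good : ∀ p, (sp V p).length ≤ M' → Good V p O'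

/-- `F` does not see the block of an instance of scale larger than `n`. -/
def Fool (V : ℕ → Local) (n : ℕ) (F : (List Bool → Bool) → ℝ) : Prop :=
  ∀ (E : Finset (ℕ × List Bool))
    (O : (∀ p : {a // a ∈ E}, CP (dm V) p.1) → (List Bool → Bool) → List Bool → Bool),
    IsZ (dm V) E O → ∀ (P : ∀ p : {a // a ∈ E}, CP (dm V) p.1) (g : List Bool → Bool)
      (p : ℕ × List Bool) (h : p ∈ E) (b : Bool), n + 1 ≤ scl V p →
      |∑ c : CP (dm V) p, mBp V p b c * F (O (Function.update P ⟨p, h⟩ c) g) -
        ∑ c : CP (dm V) p, m0p V p c * F (O (Function.update P ⟨p, h⟩ c) g)| ≤ (1 / 8) ^ scl V p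

open Classical in
/-- The oracle `O` in which the strings of the table of level `k` for `n` have the values `T`. -/
noncomputable def tbo (n k : ℕ) (O : List Bool → Bool) (T : Nn n k → Bool) (w : List Bool) : Bool :=
  if h : ∃ x : Nn n k, w = false :: nstr n k x then T h.choose else O w

open Classical in
/-- `1` if the machine accepts the input `0 ⋯ 0` of length `n`, `0` otherwise. -/
noncomputable def acz {k : ℕ} (M : Machine k) (n : ℕ) (O : List Bool → Bool) : ℝ :=
  bi (decide (List.replicate n false ∈ M.lang O))

end Pool.Agent.H66.IP
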