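import Pool.Agent.H66.IP.TA

/-!
# Soft maximum of two numbers
-/

set_option autoImplicit false

namespace Pool.Agent.H66.IP

open Real

theorem sma_core (β : ℝ) (hβ : 0 < β) (a b : ℝ) :
    exp (β * smx β a b) = (exp (β * a) + exp (β * b)) / 2 := by
  unfold smx
  rw [mul_div_cancel₀ _ hβ.ne', exp_log (by positivity)]

theorem gw_pos (β a b : ℝ) : 0 < gw β a b := by unfold gw; positivity

theorem gw_add (β a b : ℝ) : gw β a b + gw β b a = 1 := by
  unfold gw
  have h : exp (β * a) + exp (β * b) ≠ 0 := by positivity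
  rw [add_comm (exp (β * b)) (exp (β * a)), ← add_div, div_self h]

theorem smx_comm (β a b : ℝ) : smx β a b = smx β b a := by
  unfold smx
  rw [add_comm]

theorem smx_le (β : ℝ) (hβ : 0 < β) (a b c : ℝ) (ha : a ≤ c) (hb : b ≤ c) : smx β a b ≤ c := by
  have h := sma_core β hβ a b
  have h1 : exp (β * a) ≤ exp (β * c) := exp_le_exp.2 (mul_le_mul_of_nonneg_left ha hβ.le)
  have h2 : exp (β * b) ≤ exp (β * c) := exp_le_exp.2 (mul_le_mul_of_nonneg_left hb hβ.le)
  have h3 : exp (β * smx β a b) ≤ exp (β * c) := by rw [h]; linarith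
  exact le_of_mul_le_mul_left (exp_le_exp.1 h3) hβ

theorem le_smx (β : ℝ) (hβ : 0 < β) (a b c : ℝ) (ha : c ≤ a) (hb : c ≤ b) : c ≤ smx β a b := by
  have h := sma_core β hβ a b
  have h1 : exp (β * c) ≤ exp (β * a) := exp_le_exp.2 (mul_le_mul_of_nonneg_left ha hβ.le)
  have h2 : exp (β * c) ≤ exp (β * b) := exp_le_exp.2 (mul_le_mul_of_nonneg_left hb hβ.le)
  have h3 : exp (β * c) ≤ exp (β * smx β a b) := by rw [h]; linarith
  exact le_of_mul_le_mul_left (exp_le_exp.1 h3) hβ

theorem sub_le_smx (β : ℝ) (hβ : 0 < β) (a b : ℝ) : a - 1 / β ≤ smx β a b := by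
  have h := sma_core β hβ a b
  have e1 : β * (a - 1 / β) = β * a + (-1) := by field_simp; ring
  have h2 : exp (-1) ≤ 1 / 2 := by
    rw [exp_neg, ← one_div]
    apply one_div_le_one_div_of_le (by norm_num)
    have := add_one_le_exp (1 : ℝ)
    linarith
  have h3 : exp (β * (a - 1 / β)) ≤ exp (β * smx β a b) := by
    rw [h, e1, exp_add]
    have h4 : 0 < exp (β * b) := exp_pos _
    have h5 := mul_le_mul_of_nonneg_left h2 (exp_pos (β * a)).le
    linarith
  exact le_of_mul_le_mul_left (exp_le_exp.1 h3) hβ

theorem gw_eq (β : ℝ) (hβ : 0 < β) (a b : ℝ) : gw β a b = exp (β * (a - smx β a b)) / 2 := by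
  have h := sma_core β hβ a b
  have h0 : exp (β * a) + exp (β * b) ≠ 0 := by positivity
  rw [mul_sub, exp_sub, h]
  unfold gw
  field_simp

theorem pf_SMA : T_SMA := by
  intro β hβ a b
  refine ⟨⟨?_, ?_, ?_, smx_comm β a b⟩, ⟨gw_pos β a b, ?_, gw_add β a b⟩, gw_eq β hβ a b,
    sma_core β hβ a b, ?_⟩
  · rcases le_total a b with h | h
    · rw [max_eq_right h, smx_comm]
      exact sub_le_smx β hβ b a
    · rw [max_eq_left h]
      exact sub_le_smx β hβ a b
  · exact le_smx β hβ a b _ (min_le_left _ _) (min_le_right _ _)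
  · exact smx_le β hβ a b _ (le_max_left _ _) (le_max_right _ _)
  · have h1 := gw_pos β b a
    have h2 := gw_add β a b
    linarith
  · intro a' b'
    set w := gw β a b with hw
    set w' := gw β b a with hw'
    set m := w * (a' - a) + w' * (b' - b) with hm
    have hww : w + w' = 1 := gw_add β a b
    have hE := sma_core β hβ a b
    have hE' := sma_core β hβ a' b'
    have hsum : 0 < exp (β * a) + exp (β * b) := by positivity
    have hwE : w * (exp (β * a) + exp (β * b)) = exp (β * a) := by
      rw [hw]; unfold gw; field_simp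
    have hwE' : w' * (exp (β * a) + exp (β * b)) = exp (β * b) := by
      rw [hw']; unfold gw; rw [add_comm (exp (β * b)) (exp (β * a))]; field_simp
    have ha' : exp (β * a') = exp (β * a) * exp (β * (a' - a)) := by
      rw [← exp_add]; congr 1; ring
    have hb' : exp (β * b') = exp (β * b) * exp (β * (b' - b)) := by
      rw [← exp_add]; congr 1; ring
    have h1 : exp (β * m) * (1 + β * (a' - a - m)) ≤ exp (β * (a' - a)) := by
      have h := add_one_le_exp (β * (a' - a - m))
      have e : exp (β * (a' - a)) = exp (β * m) * exp (β * (a' - a - m)) := by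
        rw [← exp_add]; congr 1; ring
      rw [e]
      exact mul_le_mul_of_nonneg_left (by linarith) (exp_pos _).le
    have h2 : exp (β * m) * (1 + β * (b' - b - m)) ≤ exp (β * (b' - b)) := by
      have h := add_one_le_exp (β * (b' - b - m))
      have e : exp (β * (b' - b)) = exp (β * m) * exp (β * (b' - b - m)) := by
        rw [← exp_add]; congr 1; ring
      rw [e]
      exact mul_le_mul_of_nonneg_left (by linarith) (exp_pos _).le
    have hw0 : 0 < w := gw_pos β a b
    have hw0' : 0 < w' := gw_pos β b a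
    have h3 : exp (β * m) ≤ w * exp (β * (a' - a)) + w' * exp (β * (b' - b)) := by
      have h4 := mul_le_mul_of_nonneg_left h1 hw0.le
      have h5 := mul_le_mul_of_nonneg_left h2 hw0'.le
      have e : w * (exp (β * m) * (1 + β * (a' - a - m))) +
          w' * (exp (β * m) * (1 + β * (b' - b - m))) =
          exp (β * m) * ((w + w') * (1 - β * m) + β * (w * (a' - a) + w' * (b' - b))) := by ring
      rw [hww, ← hm] at e
      have e2 : exp (β * m) * (1 * (1 - β * m) + β * m) = exp (β * m) := by ring
      linarith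
    have h6 : exp (β * (smx β a b + m)) ≤ exp (β * smx β a' b') := by
      rw [hE', mul_add, exp_add, hE, ha', hb']
      have h7 : (exp (β * a) + exp (β * b)) / 2 * exp (β * m) ≤
          (exp (β * a) + exp (β * b)) / 2 * (w * exp (β * (a' - a)) +
            w' * exp (β * (b' - b))) := mul_le_mul_of_nonneg_left h3 (by positivity)
      have e : (exp (β * a) + exp (β * b)) / 2 * (w * exp (β * (a' - a)) +
          w' * exp (β * (b' - b))) = (w * (exp (β * a) + exp (β * b)) * exp (β * (a' - a)) +
            w' * (exp (β * a) + exp (β * b)) * exp (β * (b' - b))) / 2 := by ring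
      rw [hwE, hwE'] at e
      linarith
    have h8 := le_of_mul_le_mul_left (exp_le_exp.1 h6) hβ
    have e9 : w * (a - a') + w' * (b - b') = -m := by rw [hm]; ring
    rw [e9]
    linarith

end Pool.Agent.H66.IP
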