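import Pool.Agent.H66.IP.Defs

/-!
# Interactive proofs do not see forrelation: targets, part A (game trees)
-/

set_option autoImplicit false

namespace Pool.Agent.H66.IP

open Finset Pool.Agent.H6.NB

/-! ## Soft maximum -/

/-- SMA: the soft maximum of two numbers. -/
def T_SMA : Prop := ∀ β : ℝ, 0 < β → ∀ a b : ℝ,
  (max a b - 1 / β ≤ smx β a b ∧ min a b ≤ smx β a b ∧ smx β a b ≤ max a b ∧
    smx β a b = smx β b a) ∧
  (0 < gw β a b ∧ gw β a b < 1 ∧ gw β a b + gw β b a = 1) ∧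
  (gw β a b = Real.exp (β * (a - smx β a b)) / 2) ∧
  Real.exp (β * smx β a b) = (Real.exp (β * a) + Real.exp (β * b)) / 2 ∧
  ∀ a' b' : ℝ, smx β a b - smx β a' b' ≤ gw β a b * (a - a') + gw β b a * (b - b')

/-- EVS: the values with and without soft choices. -/
def T_EVS : Prop := ∀ (V : Type) (β : ℝ) (t : Tr V) (y : V → Bool), 0 < β →
  0 ≤ t.sv β y ∧ t.sv β y ≤ t.ev y ∧ t.ev y ≤ 1 ∧ t.ev y ≤ t.sv β y + t.cc / β

/-! ## Masses -/

/-- MSS: the masses. -/
def T_MSS : Prop := ∀ (V : Type) [Fintype V] (β : ℝ) (t : Tr V) (y : V → Bool), 0 < β →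
  (∀ x, 0 ≤ t.ms β x y ∧ t.ms β x y ≤ 1) ∧ ∑ x, t.ms β x y ≤ t.wd

/-- LIP: the value decreases at most by the mass of the changed variables. -/
def T_LIP : Prop := ∀ (V : Type) [Fintype V] [DecidableEq V] (β : ℝ) (t : Tr V)
  (y y' : V → Bool), 0 < β →
  t.sv β y - t.sv β y' ≤ ∑ x ∈ univ.filter (fun x => y x ≠ y' x), t.ms β x y

/-- EXL: the same for the value without soft choices. -/
def T_EXL : Prop := ∀ (V : Type) [Fintype V] [DecidableEq V] (t : Tr V) (y : V → Bool),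
  ∃ a : V → ℝ, (∀ x, 0 ≤ a x) ∧ ∑ x, a x ≤ t.wd ∧
    ∀ y', t.ev y - t.ev y' ≤ ∑ x ∈ univ.filter (fun x => y x ≠ y' x), a x

/-- RSM: the sum of the products. -/
def T_RSM : Prop := ∀ (V : Type) [Fintype V] [DecidableEq V] (β : ℝ) (t : Tr V)
  (y : V → Bool), 0 < β → (∀ x z, 0 ≤ t.own β x z y ∧ t.own β x z y ≤ t.rr β x z y) ∧
  ∑ x, ∑ z, t.rr β x z y ≤ (t.dp + 1) * (4 * (t.wd : ℝ) ^ 2)

/-- TRN: transport of the mass of `z` along the direction `x`. -/
def T_TRN : Prop := ∀ (V : Type) [Fintype V] [DecidableEq V] (β : ℝ) (k : ℕ) (t : Tr V)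
  (y : V → Bool) (x z : V), 1 ≤ β → 1 ≤ k → t.cc ≤ k → x ≠ z →
  t.ms β z y ≤ 3 * (t.ms β z (fp x y) + (t.rr β x z y + t.rr β x z (fp x y)) / tht β k)

/-! ## Numbers on a square -/

/-- SQA: the product of two differences. -/
def T_SQA : Prop := ∀ g a a' : Bool → Bool → ℝ, Sq g a a' → ∀ i i' j j' : Bool,
  |g true j - g false j| * |g i true - g i false| ≤
    2 * (ow a a' true true + ow a a' true false + ow a a' false true + ow a a' false false)

/-- SQB: large variation: the differences in one of the directions are controlled at a corner near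
the top. -/
def T_SQB : Prop := ∀ (g a a' : Bool → Bool → ℝ) (θ : ℝ), Sq g a a' → 0 < θ →
  (∃ i j i' j', 4 * θ ≤ g i j - g i' j') →
  ∃ i₀ j₀, (∀ i j, g i j - 2 * θ ≤ g i₀ j₀) ∧
    ((∀ j, |g true j - g false j| ≤ ow a a' i₀ j₀ / θ) ∨
      ∀ i, |g i true - g i false| ≤ ow a a' i₀ j₀ / θ)

/-- EXQ: the second difference of an exponential, small variation. -/
def T_EXQ : Prop := ∀ (g : Bool → Bool → ℝ) (β θ : ℝ), 0 < β → 0 < θ →
  (∀ i j i' j', g i j - g i' j' ≤ 4 * θ) → ∀ z : Bool → Bool → ℝ,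
  (∀ i j, z i j = Real.exp (β * g i j)) →
  |z true true - z true false - z false true + z false false| ≤ z false false *
    Real.exp (16 * (β * θ)) * (β ^ 2 * (|g true false - g false false| *
      |g false true - g false false|) +
      β * |g true true - g true false - g false true + g false false|)

/-- EXL2: the second difference of an exponential, if the differences in one direction are small. -/
def T_EXB : Prop := ∀ (g : Bool → Bool → ℝ) (β ε M : ℝ), 0 < β → 0 ≤ ε → (∀ i j, g i j ≤ M) →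
  ((∀ j, |g true j - g false j| ≤ ε) ∨ ∀ i, |g i true - g i false| ≤ ε) → ∀ z : Bool → Bool → ℝ,
  (∀ i j, z i j = Real.exp (β * g i j)) →
  |z true true - z true false - z false true + z false false| ≤
    2 * (β * ε) * Real.exp (β * M)

/-- LGR: from the four partition functions to the value. -/
def T_LGR : Prop := ∀ (v : Bool → Bool → ℝ) (β θ : ℝ), 0 < β → 0 < θ →
  (∀ i j, |v i j - v (!i) j| ≤ θ ∧ |v i j - v i (!j)| ≤ θ) → ∀ Z : Bool → Bool → ℝ,
  (∀ i j, Z i j = Real.exp (β * v i j)) →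
  |v true true - v true false - v false true + v false false| ≤ Real.exp (2 * (β * θ)) / β *
    (Z false false * |Z true true - Z true false - Z false true + Z false false| /
      (Z true false * Z false true)) +
    Real.exp (4 * (β * θ)) * β * (|v true false - v false false| * |v false true - v false false|)

/-! ## The pointwise inequality -/

/-- HVY: the step if there is a large mass at a corner. -/
def T_HVY : Prop := ∀ (V : Type) [Fintype V] [DecidableEq V] (β : ℝ) (k : ℕ) (t : Tr V)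
  (y : V → Bool) (x z : V), 1 ≤ β → 1 ≤ k → t.cc ≤ k → x ≠ z →
  (tht β k ≤ t.ms β x y ∨ tht β k ≤ t.ms β z y) →
  |dd x z (t.sv β) y| ≤ 7 / tht β k * c4 x z (t.rr β x z) y

/-- LGT: the step at a choice if all masses are small. -/
def T_LGT : Prop := ∀ (V : Type) [Fintype V] [DecidableEq V] (β : ℝ) (k : ℕ) (l r : Tr V)
  (K : ℝ) (y : V → Bool) (x z : V), 1 ≤ β → 1 ≤ k → (Tr.ch l r).cc ≤ k → x ≠ z → 0 ≤ K →
  (∀ y', y' = y ∨ y' = fp x y ∨ y' = fp z y ∨ y' = fp x (fp z y) →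
    (Tr.ch l r).ms β x y' < tht β k ∧ (Tr.ch l r).ms β z y' < tht β k) →
  |dd x z (l.sv β) y| ≤ K * c4 x z (l.rr β x z) y →
  |dd x z (r.sv β) y| ≤ K * c4 x z (r.rr β x z) y →
  |dd x z ((Tr.ch l r).sv β) y| ≤
    (Real.exp (1 / k) * K + 120 * β * k) * c4 x z ((Tr.ch l r).rr β x z) y

/-- PTW: the pointwise inequality. -/
def T_PTW : Prop := ∀ (V : Type) [Fintype V] [DecidableEq V] (β : ℝ) (k : ℕ) (t : Tr V)
  (y : V → Bool) (x z : V), 1 ≤ β → 1 ≤ k → t.cc ≤ k → x ≠ z →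
  |dd x z (t.sv β) y| ≤ 2000 * β * (k : ℝ) ^ 2 * c4 x z (t.rr β x z) y

/-- GL2: the second level of the Fourier spectrum of a game. -/
def T_GL2 : Prop := ∀ (V : Type) [Fintype V] [DecidableEq V] (β : ℝ) (k d q : ℕ) (t : Tr V),
  1 ≤ β → 1 ≤ k → t.cc ≤ k → t.dp ≤ d → t.wd ≤ q →
  L12 (t.sv β) ≤ 4000 * β * (k : ℝ) ^ 2 * (d + 1) * (q : ℝ) ^ 2

/-- RTR: a game with some of the variables fixed is a game. -/
def T_RTR : Prop := ∀ (V : Type) [Fintype V] (t : Tr V) (ρ : V → Option Bool),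
  ∃ t' : Tr V, t'.cc ≤ t.cc ∧ t'.dp ≤ t.dp ∧ t'.wd ≤ t.wd ∧
    (∀ y, t'.ev y = rst ρ t.ev y) ∧ ∀ β y, t'.sv β y = rst ρ (t.sv β) y

/-- SBT: substitution: the variables of `t` are replaced by constants or variables. -/
def T_SBT : Prop := ∀ (V X : Type) [Fintype V] [Fintype X] (t : Tr V) (s : V → Bool ⊕ X),
  ∃ t' : Tr X, t'.cc = t.cc ∧ t'.dp = t.dp ∧ t'.wd ≤ t.wd ∧
    ∀ y : X → Bool, t'.ev y = t.ev fun v => Sum.elim id y (s v)

end Pool.Agent.H66.IP
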