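import Pool.Agent.H66.IP.TA
import Pool.Agent.H66.IP.DefsB

/-!
# Interactive proofs do not see forrelation: targets, part B (blocks)
-/

set_option autoImplicit false

namespace Pool.Agent.H66.IP

open Finset Pool.Agent.H6.NB Pool.Agent.H70.EH Pool.Agent.H78.XQ

/-- ONC: a game does not see one copy. -/
def T_ONC : Prop := ∀ (q k d w : ℕ) (t : Tr (VV q)), 10 ≤ q → 1 ≤ k → 1 ≤ w →
  t.cc ≤ k → t.dp ≤ d → t.wd ≤ w →
  |∑ p, mv true q p * t.ev p - ∑ p, mv false q p * t.ev p| ≤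
    4003 * (k : ℝ) ^ 2 * (d + 1) * (w : ℝ) ^ 2 / 2 ^ (q / 4)

/-- CPU: replacement of independent copies. -/
def T_CPU : Prop := ∀ (U T : Type) [Fintype U] [DecidableEq U] [Fintype T] [DecidableEq T]
  (a b : T → ℝ) (F : (U → T) → ℝ) (η : ℝ), (∀ p, 0 ≤ a p) → (∀ p, 0 ≤ b p) → ∑ p, a p = 1 →
  ∑ p, b p = 1 → (∀ P u, |∑ p, a p * F (Function.update P u p) -
    ∑ p, b p * F (Function.update P u p)| ≤ η) →
  |∑ P, (∏ u, a (P u)) * F P - ∑ P, (∏ u, b (P u)) * F P| ≤ Fintype.card U * η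

open Classical in
/-- SYX: the copies say the bit `b` with high probability. -/
def T_SYX : Prop := ∀ r l q R n : ℕ, Sz r l q R n → ∀ b : Bool,
  ∑ P : (Fin (2 * l) → Bool) → VV q → Bool, (∏ u, mv b q (P u)) *
    (if SayX q l b P then 0 else 1) ≤ 1 / 2 ^ l

/-- WEX: the weight of the correction string. -/
def T_WEX : Prop := ∀ r l q R n : ℕ, Sz r l q R n → ∀ (b : Bool)
  (P : (Fin (2 * l) → Bool) → VV q → Bool), SayX q l b P → ∃ W : ℕ,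
    (W : ℝ) / 2 ^ n = (if b then 1 / 2 else 3 / 2) - kap q R P ∧ W ≤ 2 ^ n ∧
    |(W : ℝ) - 2 ^ n / 2| ≤ R / 2 ^ l * 2 ^ n

/-- ADJ: games on strings of neighbouring weights. -/
def T_ADJ : Prop := ∀ (V : Type) [Fintype V] [DecidableEq V] (W w : ℕ) (t : Tr V), t.wd ≤ w →
  W + 1 ≤ Fintype.card V →
  wm (fun _ => none) (W + 1) t.ev - wm (fun _ => none) W t.ev ≤ w / (W + 1) ∧
  wm (fun _ => none) W t.ev - wm (fun _ => none) (W + 1) t.ev ≤ w / (Fintype.card V - W)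

/-- VRN: the mean as an average over the weights; the variance of the weight. -/
def T_VRN : Prop := ∀ (V : Type) [Fintype V] [DecidableEq V],
  (∀ F : (V → Bool) → ℝ, mn F = ∑ W ∈ range (Fintype.card V + 1),
    ((Fintype.card V).choose W : ℝ) / 2 ^ Fintype.card V * wm (fun _ => none) W F) ∧
  ∑ W ∈ range (Fintype.card V + 1), ((Fintype.card V).choose W : ℝ) / 2 ^ Fintype.card V *
    ((W : ℝ) - (Fintype.card V : ℝ) / 2) ^ 2 = (Fintype.card V : ℝ) / 4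

/-- GWT: a game on strings of given weight. -/
def T_GWT : Prop := ∀ (V : Type) [Fintype V] [DecidableEq V] [Nonempty V] (W w : ℕ) (δ : ℝ)
  (t : Tr V), 0 ≤ δ → δ ≤ 1 / 8 → t.wd ≤ w →
  |(W : ℝ) - Fintype.card V / 2| ≤ δ * Fintype.card V →
  |wm (fun _ => none) W t.ev - mn t.ev| ≤
    4 * w * (δ + 1 / √(Fintype.card V)) + 16 / Fintype.card V

/-- BLG: a game does not see a block. -/
def T_BLG : Prop := ∀ r l q R n : ℕ, Sz r l q R n → ∀ (b : Bool) (k d w : ℕ)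
  (F : ((Fin (2 * l) → Bool) → VV q → Bool) × ((Fin n → Bool) → Bool) → ℝ), 1 ≤ k → 1 ≤ w →
  (∀ P u h, ∃ t : Tr (VV q), t.cc ≤ k ∧ t.dp ≤ d ∧ t.wd ≤ w ∧
    ∀ y, F (Function.update P u y, h) = t.ev y) →
  (∀ P, ∃ t : Tr (Fin n → Bool), t.wd ≤ w ∧ ∀ h, F (P, h) = t.ev h) →
  |∑ c, mB q l R n b c * F c - ∑ c, m0 q l n c * F c| ≤
    (k : ℝ) ^ 2 * (d + 1) * (w : ℝ) ^ 2 / 2 ^ (l / 2)

/-- BFG: a game does not see a block of larger scale. -/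
def T_BFG : Prop := ∀ r l q R N : ℕ, Sz r l q R N → ∀ (n : ℕ) (b : Bool)
  (F : ((Fin (2 * l) → Bool) → VV q → Bool) × ((Fin N → Bool) → Bool) → ℝ), n + 1 ≤ r →
  (∀ P u h, ∃ t : Tr (VV q), t.cc ≤ 2 ^ n ^ 2 + 2 ^ n ∧ t.dp ≤ 2 ^ n ^ 2 + 2 ^ n ∧
    t.wd ≤ 2 ^ n ∧ ∀ y, F (Function.update P u y, h) = t.ev y) →
  (∀ P, ∃ t : Tr (Fin N → Bool), t.wd ≤ 2 ^ n ∧ ∀ h, F (P, h) = t.ev h) →
  |∑ c, mB q l R N b c * F c - ∑ c, m0 q l N c * F c| ≤ (1 / 8) ^ r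

/-- BFW: a formula does not see a block. -/
def T_BFW : Prop := ∀ r l q R n : ℕ, Sz r l q R n → ∀ (b : Bool)
  (B : ((Fin (2 * l) → Bool) → VV q → Bool) × ((Fin n → Bool) → Bool) → Bool),
  (∀ P u h, Cl (VV q) (2 ^ 2 ^ r ^ 2) (r + 1) fun c => B (Function.update P u c, h)) →
  (∀ P, Cl (Fin n → Bool) (2 ^ 2 ^ r ^ 2) (r + 1) fun h => B (P, h)) →
  |∑ c, mB q l R n b c * bi (B c) - ∑ c, m0 q l n c * bi (B c)| ≤ (1 / 8) ^ r

end Pool.Agent.H66.IP
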